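import Mathlib

/-! # Definitions for the zeros project (MP_1e057a_nt)

`q`, `χ` primitive mod `q`; all zeros are considered in the upper half plane. -/

open Complex MeasureTheory

namespace Pool.Agent.PCZ

/-- the part `a < Im s ≤ b` of the open critical strip -/
def strip (a b : ℝ) : Set ℂ := {s : ℂ | 0 < s.re ∧ s.re < 1 ∧ a < s.im ∧ s.im ≤ b}

section chi
variable {q : ℕ} [NeZero q] (χ : DirichletCharacter ℂ q)

/-- multiplicity of `s` as a zero of `L(s, χ)` (`0` if it is not a zero) -/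
noncomputable def mul (s : ℂ) : ℕ := (analyticOrderAt (DirichletCharacter.LFunction χ) s).toNat

/-- the set of nontrivial zeros with ordinate in `(a, b]` -/
def ZS (a b : ℝ) : Set ℂ := {s : ℂ | s ∈ strip a b ∧ DirichletCharacter.LFunction χ s = 0}

open Classical in
/-- the same as a finset (it is finite for `0 < a`, see `ZFin.lean`) -/
noncomputable def ZF (a b : ℝ) : Finset ℂ :=
  if h : (ZS χ a b).Finite then h.toFinset else ∅

/-- number of nontrivial zeros with ordinate in `(a, b]`, with multiplicity -/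
noncomputable def NN (a b : ℝ) : ℕ := ∑ ρ ∈ ZF χ a b, mul χ ρ

/-- number of distinct nontrivial zeros with ordinate in `(a, b]` -/
noncomputable def ND (a b : ℝ) : ℕ := (ZF χ a b).card

open Classical in
/-- number of simple zeros on the critical line with ordinate in `(a, b]` -/
noncomputable def NS (a b : ℝ) : ℕ :=
  ((ZF χ a b).filter (fun ρ => ρ.re = 1 / 2 ∧ mul χ ρ = 1)).card

/-- sum over the zeros with multiplicity -/
noncomputable def zsum (a b : ℝ) (G : ℂ → ℂ) : ℂ := ∑ ρ ∈ ZF χ a b, (mul χ ρ : ℂ) * G ρ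

/-- double sum over the zeros with multiplicity, of a real valued function -/
noncomputable def zsum2 (a b : ℝ) (G : ℂ → ℂ → ℝ) : ℝ :=
  ∑ ρ ∈ ZF χ a b, ∑ ρ' ∈ ZF χ a b, (mul χ ρ : ℝ) * (mul χ ρ' : ℝ) * G ρ ρ'

end chi

/-- `KK φ L w = ∫ φ(u) exp(w L u) du`; the test function is `s ↦ KK φ L (s - 1/2 - i t)` -/
noncomputable def KK (φ : ℝ → ℝ) (L : ℝ) (w : ℂ) : ℂ :=
  ∫ u : ℝ, (φ u : ℂ) * cexp (w * ((L * u : ℝ) : ℂ))

/-- `RR φ L w = ∫ φ(u)^2 exp(w L u) du` -/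
noncomputable def RR (φ : ℝ → ℝ) (L : ℝ) (w : ℂ) : ℂ :=
  ∫ u : ℝ, ((φ u ^ 2 : ℝ) : ℂ) * cexp (w * ((L * u : ℝ) : ℂ))

/-- admissible smooth test functions: smooth, even, supported in `[-θ, θ]` -/
structure Test (θ : ℝ) (φ : ℝ → ℝ) : Prop where
  smooth : ContDiff ℝ (⊤ : ℕ∞) φ
  even : ∀ u, φ (-u) = φ u
  supp : ∀ u, θ < |u| → φ u = 0

/-- kernels: `g` continuous, even, nonnegative on `[-1/2, 1/2]`, of integral `1` there
(only the values on `[-1/2, 1/2]` matter) -/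
structure Ker (g : ℝ → ℝ) : Prop where
  cont : Continuous g
  even : ∀ α, g (-α) = g α
  nonneg : ∀ α, 0 ≤ g α
  int_one : ∫ α in (-1/2 : ℝ)..(1/2), g α = 1

/-- `HH g w = ∫_{-1/2}^{1/2} g(α) exp(w α) dα` (so `h(z) = HH g (2π i z)`) -/
noncomputable def HH (g : ℝ → ℝ) (w : ℂ) : ℂ :=
  ∫ α in (-1/2 : ℝ)..(1/2), (g α : ℂ) * cexp (w * (α : ℂ))

/-- the constant `C(g) = ∫ g^2 + ∬ g(α) g(β) |α - β|` -/
noncomputable def CC (g : ℝ → ℝ) : ℝ :=
  (∫ α in (-1/2 : ℝ)..(1/2), g α ^ 2) +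
    ∫ α in (-1/2 : ℝ)..(1/2), ∫ β in (-1/2 : ℝ)..(1/2), g α * g β * |α - β|

/-- the constant of a test function: `φ(0)^2 + 2 ∫_0^1 u φ(u)^2 du` -/
noncomputable def Cφ (φ : ℝ → ℝ) : ℝ := φ 0 ^ 2 + 2 * ∫ u in (0 : ℝ)..1, u * φ u ^ 2

/-- trapezoid: `v α β Δ t = max 0 (min 1 (min ((t-α)/Δ) ((β-t)/Δ)))` -/
noncomputable def trap (α β Δ t : ℝ) : ℝ := max 0 (min 1 (min ((t - α) / Δ) ((β - t) / Δ)))

/-- the prime polynomial `Σ_n Λ(n) χ(n) n^{-1/2-it} φ(log n / L)` (a finite sum, `n ≤ exp L`) -/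
noncomputable def PP {q : ℕ} (χ : DirichletCharacter ℂ q) (φ : ℝ → ℝ) (L t : ℝ) : ℂ :=
  ∑ n ∈ Finset.Icc 1 ⌊Real.exp L⌋₊,
    (ArithmeticFunction.vonMangoldt n : ℂ) * χ n * (φ (Real.log n / L) : ℂ) *
      (n : ℂ) ^ (-(1/2 : ℂ) - I * t)

end Pool.Agent.PCZ
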